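import Pool.Agent.X180.GM.OrbDim

/-!
MP_d84343_gt, Q1 (affirmative): there is a G-manifold with a single singular orbit, of
cohomogeneity greater than three, with an invariant metric of positive Ricci curvature. The
example: the group of unit quaternions acting on the unit sphere `S¹⁰` of `ℍ ⊕ ℍ ⊕ Im ℍ` by
`q • (a, b, w) = (q a, q b, q w q⁻¹)`, with the round metric.
-/

set_option autoImplicit false

namespace Pool.Agent.Results.MP_d84343_gt.SingleSingularOrbit

open scoped ContDiff Manifold InnerProductSpace Topology Quaternion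
open Pool.Agent.X180.NC Pool.Agent.X180.GM Metric Module

theorem singular_iff (x : S10) : IsSingular E3 E10 S3 x ↔ ¬ Gen x := by
  constructor
  · rintro ⟨p, -, hlt⟩ hx
    have h1 := orbitDim_gen hx
    have h2 := orbitDim_le p
    omega
  · intro hx
    refine ⟨pt, principal_gen pt_gen, ?_⟩
    rw [orbitDim_gen pt_gen]
    exact orbitDim_not_gen hx

/-- A point of the singular orbit. -/
noncomputable def sp : S10 := ⟨⟨WithLp.toLp 2 ![0, 0, qi], by
    rw [mem_K]
    rfl⟩, by
  rw [mem_sphere_zero_iff_norm]
  have h : ‖(WithLp.toLp 2 ![0, 0, qi] : P)‖ ^ 2 = 1 := by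
    rw [PiLp.norm_sq_eq_of_L2, Fin.sum_univ_three]
    simp [norm_qi]
  exact (pow_eq_one_iff_of_nonneg (norm_nonneg _) two_ne_zero).mp h⟩

theorem sp_not_gen : ¬ Gen sp := by
  rintro (h | h)
  · exact h rfl
  · exact h rfl

theorem compactLie : IsCompactLieGroup E3 S3 :=
  ⟨LieGroup.of_le (m := ∞) (n := ω) (by exact le_top), inferInstance, inferInstance⟩

theorem closedMfd : IsClosedManifold E10 S10 := by
  refine ⟨inferInstance, inferInstance, inferInstance, ?_⟩
  have h1 : 1 < Module.rank ℝ K := by
    rw [← finrank_eq_rank, finrank_K]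
    norm_num
  exact Subtype.connectedSpace (isConnected_sphere h1 0 zero_le_one)

theorem single : SingleSingularOrbit E3 E10 S3 S10 := by
  refine ⟨⟨sp, (singular_iff sp).mpr sp_not_gen, fun x hx =>
    mem_orbit_of_not_gen sp_not_gen ((singular_iff x).mp hx)⟩, ?_⟩
  refine (Set.finite_singleton (MulAction.orbit S3 sp)).subset ?_
  rintro O ⟨x, hx, rfl⟩
  have hg : ¬ Gen x := fun h => hx (principal_gen h)
  exact MulAction.orbit_eq_iff.mpr (mem_orbit_of_not_gen sp_not_gen hg)

theorem cohom : CohomogeneityGT E3 E10 S3 S10 3 := by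
  intro p _
  have h1 := orbitDim_le p
  have h2 : finrank ℝ E10 = 10 := by simp
  omega

theorem immersion : IsSmoothImmersion E10 (fun x : S10 => (x : K)) :=
  ⟨smooth_val.of_le (by exact le_top), fun x => mfderiv_coe_sphere_injective x⟩

theorem metric : ∃ g : RMetric E10 S10, g.Invariant S3 ∧ g.PosRicci := by
  refine ⟨induced _ immersion, ?_, ?_⟩
  · refine induced_invariant immersion (fun g => ?_) rhoK (fun g x => rfl)
    exact ContMDiff.comp (g := fun q : S3 × S10 => q.1 • q.2) (f := fun x : S10 => (g, x))
      smooth_action (contMDiff_const.prodMk contMDiff_id)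
  · have h2 : finrank ℝ E10 = 10 := by simp
    refine induced_posRicci immersion S10.norm_coe ?_ ?_
    · rw [finrank_K, h2]
    · omega

theorem result : ∃ (VG VM G M : Type) (_ : NormedAddCommGroup VG) (_ : NormedSpace ℝ VG)
    (_ : FiniteDimensional ℝ VG) (_ : NormedAddCommGroup VM) (_ : NormedSpace ℝ VM)
    (_ : FiniteDimensional ℝ VM) (_ : Group G) (_ : TopologicalSpace G) (_ : ChartedSpace VG G)
    (_ : TopologicalSpace M) (_ : ChartedSpace VM M) (_ : MulAction G M),
    IsCompactLieGroup VG G ∧ IsClosedManifold VM M ∧ SmoothAction VG VM G M ∧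
      SingleSingularOrbit VG VM G M ∧ CohomogeneityGT VG VM G M 3 ∧
      ∃ g : RMetric VM M, g.Invariant G ∧ g.PosRicci := by
  refine ⟨E3, E10, S3, S10, inferInstance, inferInstance, inferInstance, inferInstance,
    inferInstance, inferInstance, inferInstance, inferInstance, inferInstance, inferInstance,
    inferInstance, inferInstance, compactLie, closedMfd, smooth_action, single, cohom, metric⟩

end Pool.Agent.Results.MP_d84343_gt.SingleSingularOrbit
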